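import Pool.Agent.Helper23.MV.StL

/-!
# Project MV, module AZ2: mean square of the truncated logarithmic Moebius sum
-/

set_option autoImplicit false

namespace Pool.Agent.Helper84.MV

open Finset ArithmeticFunction
open Pool.Agent.Helper23.MV

private theorem step_AZ2 (th : ℝ) (hth : 0 < th) (n : ℕ) :
    th * ((n + 2 : ℕ) : ℝ) ^ (-(1 + th)) ≤
      ((n + 1 : ℕ) : ℝ) ^ (-th) - ((n + 2 : ℕ) : ℝ) ^ (-th) := by
  have h2 : (0 : ℝ) < ((n + 2 : ℕ) : ℝ) := by positivity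
  have h1 : (0 : ℝ) < ((n + 1 : ℕ) : ℝ) := by positivity
  have e1 : ((n + 2 : ℕ) : ℝ) ^ (-(1 + th)) =
      ((n + 2 : ℕ) : ℝ) ^ (-th) * (1 / ((n + 2 : ℕ) : ℝ)) := by
    rw [show -(1 + th) = -th + (-1) by ring, Real.rpow_add h2, Real.rpow_neg_one, one_div]
  have e2 : ((n + 1 : ℕ) : ℝ) ^ (-th) =
      ((n + 2 : ℕ) : ℝ) ^ (-th) * (((n + 1 : ℕ) : ℝ) / ((n + 2 : ℕ) : ℝ)) ^ (-th) := by
    rw [← Real.mul_rpow h2.le (by positivity), mul_div_cancel₀ _ h2.ne']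
  have e3 : 1 + th * (1 / ((n + 2 : ℕ) : ℝ)) ≤
      (((n + 1 : ℕ) : ℝ) / ((n + 2 : ℕ) : ℝ)) ^ (-th) := by
    have hq : (0 : ℝ) < ((n + 1 : ℕ) : ℝ) / ((n + 2 : ℕ) : ℝ) := by positivity
    have hl : Real.log (((n + 1 : ℕ) : ℝ) / ((n + 2 : ℕ) : ℝ)) ≤ -(1 / ((n + 2 : ℕ) : ℝ)) := by
      have := Real.log_le_sub_one_of_pos hq
      have e : ((n + 1 : ℕ) : ℝ) / ((n + 2 : ℕ) : ℝ) - 1 = -(1 / ((n + 2 : ℕ) : ℝ)) := by
        field_simp
        push_cast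
        ring
      rw [e] at this
      exact this
    rw [Real.rpow_def_of_pos hq]
    have h3 : th * (1 / ((n + 2 : ℕ) : ℝ)) ≤
        Real.log (((n + 1 : ℕ) : ℝ) / ((n + 2 : ℕ) : ℝ)) * -th := by nlinarith
    have h4 := Real.add_one_le_exp (Real.log (((n + 1 : ℕ) : ℝ) / ((n + 2 : ℕ) : ℝ)) * -th)
    linarith
  rw [e1, e2]
  have h5 : (0 : ℝ) < ((n + 2 : ℕ) : ℝ) ^ (-th) := Real.rpow_pos_of_pos h2 _
  nlinarith

private theorem part_AZ2 (th : ℝ) (hth : 0 < th) (n : ℕ) :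
    th * ∑ k ∈ range (n + 2), (k : ℝ) ^ (-(1 + th)) ≤
      th + 1 - ((n + 1 : ℕ) : ℝ) ^ (-th) := by
  induction n with
  | zero =>
    rw [sum_range_succ, sum_range_succ, sum_range_zero]
    simp [Real.zero_rpow (show -(1 + th) ≠ 0 by linarith)]
    rw [Real.zero_rpow (by linarith)]
    linarith
  | succ n ih =>
    rw [sum_range_succ, mul_add]
    have := step_AZ2 th hth n
    have e : ((n + 1 + 1 : ℕ) : ℝ) = ((n + 2 : ℕ) : ℝ) := by push_cast; ring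
    rw [e]
    linarith

private theorem zeta_AZ2 (th : ℝ) (hth : 0 < th) :
    ∑' k : ℕ, (k : ℝ) ^ (-(1 + th)) ≤ 1 + 1 / th := by
  refine Real.tsum_le_of_sum_range_le (fun n => by positivity) (fun n => ?_)
  have h1 := part_AZ2 th hth n
  have h2 : (0 : ℝ) ≤ ((n + 1 : ℕ) : ℝ) ^ (-th) := by positivity
  have h3 : ∑ k ∈ range n, (k : ℝ) ^ (-(1 + th)) ≤ ∑ k ∈ range (n + 2), (k : ℝ) ^ (-(1 + th)) :=
    sum_le_sum_of_subset_of_nonneg (range_mono (by omega)) (fun _ _ _ => by positivity)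
  refine h3.trans ?_
  rw [← sub_nonneg]
  have h4 : th * (1 + 1 / th) = th + 1 := by field_simp
  nlinarith

private theorem mult_AZ2 (s : ℝ) (L : ℕ) (hL : 1 ≤ L) :
    ∑' n : ℕ, (if L ∣ n then (n : ℝ) ^ (-s) else 0) = (L : ℝ) ^ (-s) * ∑' n : ℕ, (n : ℝ) ^ (-s) := by
  have hinj : Function.Injective (fun m : ℕ => L * m) := fun a b h =>
    Nat.eq_of_mul_eq_mul_left (by omega) h
  rw [← hinj.tsum_eq (f := fun n : ℕ => (if L ∣ n then (n : ℝ) ^ (-s) else 0)), ← tsum_mul_left]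
  · refine tsum_congr fun m => ?_
    simp only [dvd_mul_right, if_true]
    push_cast
    rw [Real.mul_rpow (by positivity) (by positivity)]
  · intro n hn
    by_contra h
    apply hn
    have : ¬ L ∣ n := fun ⟨m, hm⟩ => h ⟨m, hm.symm⟩
    simp [this]

private theorem az_AZ2 (z : ℝ) (hz : 0 ≤ z) (n : ℕ) (hn : n ≠ 0) :
    AZ z n = ∑ d ∈ Icc 1 ⌊z⌋₊, (if d ∣ n then (moebius d : ℝ) * Real.log (z / d) else 0) := by
  unfold AZ
  rw [← sum_filter]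
  apply sum_congr _ (fun _ _ => rfl)
  ext d
  simp only [mem_filter, Nat.mem_divisors, mem_Icc]
  constructor
  · rintro ⟨⟨h1, -⟩, h2⟩
    exact ⟨⟨Nat.pos_of_dvd_of_pos h1 (Nat.pos_of_ne_zero hn), Nat.le_floor h2⟩, h1⟩
  · rintro ⟨⟨h1, h2⟩, h3⟩
    exact ⟨⟨h3, hn⟩, (Nat.le_floor_iff hz).1 h2⟩

theorem hAz2 : StQth → StAz2 := by
  rintro ⟨C, hC, hQ⟩
  refine ⟨2 * C, by linarith, ?_⟩
  intro z x B hz hB hx
  have hz0 : (0 : ℝ) < z := by linarith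
  have hl1 : 1 ≤ Real.log z := by
    rw [Real.le_log_iff_exp_le hz0]
    exact Real.exp_one_lt_three.le.trans hz
  have hl0 : 0 < Real.log z := by linarith
  obtain ⟨th, hth⟩ : ∃ th, th = 1 / Real.log z := ⟨_, rfl⟩
  have hth0 : 0 < th := by rw [hth]; positivity
  by_cases hx1 : x < 1
  · rw [Nat.floor_eq_zero.2 hx1]
    simp only [Icc_eq_empty_of_lt zero_lt_one, sum_empty]
    positivity
  push Not at hx1
  have hx0 : 0 < x := by linarith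
  -- step 1
  have h1 : ∑ n ∈ Icc 1 ⌊x⌋₊, AZ z n ^ 2 / n ≤
      Real.exp B * ∑ n ∈ Icc 1 ⌊x⌋₊, AZ z n ^ 2 * (n : ℝ) ^ (-(1 + th)) := by
    rw [mul_sum]
    refine sum_le_sum fun n hn => ?_
    rw [mem_Icc] at hn
    have hn0 : (0 : ℝ) < n := by exact_mod_cast hn.1
    have hnx : (n : ℝ) ≤ x := (Nat.le_floor_iff hx0.le).1 hn.2
    have e1 : (n : ℝ) ^ (-(1 + th)) = (n : ℝ)⁻¹ * (n : ℝ) ^ (-th) := by
      rw [show -(1 + th) = -1 + -th by ring, Real.rpow_add hn0, Real.rpow_neg_one]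
    have e2 : (n : ℝ) ^ th ≤ Real.exp B := by
      calc (n : ℝ) ^ th ≤ (z ^ B) ^ th :=
            Real.rpow_le_rpow hn0.le (hnx.trans hx) hth0.le
        _ = Real.exp B := by
            rw [← Real.rpow_mul hz0.le, Real.rpow_def_of_pos hz0]
            congr 1
            rw [hth]
            field_simp
    have e3 : 1 ≤ Real.exp B * (n : ℝ) ^ (-th) := by
      rw [Real.rpow_neg hn0.le]
      have h5 : (0 : ℝ) < (n : ℝ) ^ th := Real.rpow_pos_of_pos hn0 _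
      rw [← div_eq_mul_inv, le_div_iff₀ h5, one_mul]
      exact e2
    rw [e1, div_eq_mul_inv]
    have h6 : 0 ≤ AZ z n ^ 2 * (n : ℝ)⁻¹ := by positivity
    calc AZ z n ^ 2 * (n : ℝ)⁻¹ = AZ z n ^ 2 * (n : ℝ)⁻¹ * 1 := by ring
      _ ≤ AZ z n ^ 2 * (n : ℝ)⁻¹ * (Real.exp B * (n : ℝ) ^ (-th)) :=
          mul_le_mul_of_nonneg_left e3 h6
      _ = Real.exp B * (AZ z n ^ 2 * ((n : ℝ)⁻¹ * (n : ℝ) ^ (-th))) := by ring
  -- step 2: the infinite sum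
  have hs : Summable (fun n : ℕ => (n : ℝ) ^ (-(1 + th))) :=
    Real.summable_nat_rpow.2 (by linarith)
  let c : ℕ → ℝ := fun d => (moebius d : ℝ) * Real.log (z / d)
  have hexp : ∀ n : ℕ, AZ z n ^ 2 * (n : ℝ) ^ (-(1 + th)) =
      ∑ d₁ ∈ Icc 1 ⌊z⌋₊, ∑ d₂ ∈ Icc 1 ⌊z⌋₊,
        c d₁ * c d₂ * (if Nat.lcm d₁ d₂ ∣ n then (n : ℝ) ^ (-(1 + th)) else 0) := by
    intro n
    by_cases hn : n = 0
    · subst hn
      have : ((0 : ℕ) : ℝ) ^ (-(1 + th)) = 0 := by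
        rw [Nat.cast_zero, Real.zero_rpow (by linarith)]
      rw [this]
      simp
    · rw [az_AZ2 z hz0.le n hn, sq, sum_mul_sum, sum_mul]
      refine sum_congr rfl fun d₁ _ => ?_
      rw [sum_mul]
      refine sum_congr rfl fun d₂ _ => ?_
      have hiff : Nat.lcm d₁ d₂ ∣ n ↔ d₁ ∣ n ∧ d₂ ∣ n := Nat.lcm_dvd_iff
      by_cases a : d₁ ∣ n <;> by_cases b : d₂ ∣ n <;> simp [hiff, a, b, c]
  have hsm : ∀ L : ℕ, Summable (fun n : ℕ => (if L ∣ n then (n : ℝ) ^ (-(1 + th)) else 0)) := by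
    intro L
    refine Summable.of_nonneg_of_le (fun n => ?_) (fun n => ?_) hs
    · split_ifs <;> positivity
    · split_ifs
      · exact le_rfl
      · positivity
  have hsum1 : ∀ d₁ ∈ Icc 1 ⌊z⌋₊, Summable (fun n : ℕ => ∑ d₂ ∈ Icc 1 ⌊z⌋₊,
        c d₁ * c d₂ * (if Nat.lcm d₁ d₂ ∣ n then (n : ℝ) ^ (-(1 + th)) else 0)) := by
    intro d₁ _
    exact summable_sum fun d₂ _ => (hsm _).mul_left _
  have h2 : ∑ n ∈ Icc 1 ⌊x⌋₊, AZ z n ^ 2 * (n : ℝ) ^ (-(1 + th)) ≤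
      ∑' n : ℕ, AZ z n ^ 2 * (n : ℝ) ^ (-(1 + th)) := by
    refine Summable.sum_le_tsum _ (fun n _ => by positivity) ?_
    simp_rw [hexp]
    exact summable_sum hsum1
  have h3 : ∑' n : ℕ, AZ z n ^ 2 * (n : ℝ) ^ (-(1 + th)) =
      (∑ d₁ ∈ Icc 1 ⌊z⌋₊, ∑ d₂ ∈ Icc 1 ⌊z⌋₊, (moebius d₁ : ℝ) * Real.log (z / d₁) *
        ((moebius d₂ : ℝ) * Real.log (z / d₂)) * (Nat.lcm d₁ d₂ : ℝ) ^ (-1 - 1 / Real.log z)) *
        ∑' n : ℕ, (n : ℝ) ^ (-(1 + th)) := by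
    simp_rw [hexp]
    rw [Summable.tsum_finsetSum hsum1, sum_mul]
    refine sum_congr rfl fun d₁ hd₁ => ?_
    rw [Summable.tsum_finsetSum (fun d₂ _ => (hsm _).mul_left _), sum_mul]
    refine sum_congr rfl fun d₂ hd₂ => ?_
    rw [mem_Icc] at hd₁ hd₂
    rw [tsum_mul_left, mult_AZ2 (1 + th) _ (Nat.lcm_pos (by omega) (by omega)), hth,
      show -(1 + 1 / Real.log z) = -1 - 1 / Real.log z by ring]
    ring
  have h4 := hQ z hz
  have h5 := zeta_AZ2 th hth0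
  have h6 : 0 ≤ ∑' n : ℕ, (n : ℝ) ^ (-(1 + th)) := tsum_nonneg fun n => by positivity
  have h7 : 1 + 1 / th = 1 + Real.log z := by rw [hth, one_div_one_div]
  rw [h7] at h5
  calc ∑ n ∈ Icc 1 ⌊x⌋₊, AZ z n ^ 2 / n
      ≤ Real.exp B * ∑' n : ℕ, AZ z n ^ 2 * (n : ℝ) ^ (-(1 + th)) :=
        h1.trans (mul_le_mul_of_nonneg_left h2 (Real.exp_nonneg _))
    _ ≤ Real.exp B * ((C * Real.log z) * (1 + Real.log z)) := by
        refine mul_le_mul_of_nonneg_left ?_ (Real.exp_nonneg _)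
        rw [h3]
        have hCl : 0 ≤ C * Real.log z := by positivity
        exact (mul_le_mul_of_nonneg_right h4 h6).trans (mul_le_mul_of_nonneg_left h5 hCl)
    _ ≤ Real.exp B * ((C * Real.log z) * (2 * Real.log z)) := by
        refine mul_le_mul_of_nonneg_left ?_ (Real.exp_nonneg _)
        exact mul_le_mul_of_nonneg_left (by linarith) (by positivity)
    _ = 2 * C * Real.exp B * Real.log z ^ 2 := by ring

end Pool.Agent.Helper84.MV
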