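import Pool.Agent.Helper23.MV.StH

/-!
# Project MV, module GLO: lower bound for the Selberg sieve denominator.
-/

set_option autoImplicit false

namespace Pool.Agent.Helper84.MV

open Finset
open Pool.Agent.Helper23.MV

private theorem glo_fiber (F g : ℕ → ℝ) (h1 : F 1 = 1)
    (hm : ∀ m n : ℕ, Nat.Coprime m n → F (m * n) = F m * F n) (h0 : ∀ n, 0 ≤ F n)
    (hg : ∀ p : ℕ, p.Prime → ∀ K : ℕ, ∑ k ∈ Icc 1 K, F (p ^ k) ≤ g p) (z : ℕ) (P : Finset ℕ)
    (hP : ∀ p ∈ P, p.Prime) :
    ∑ n ∈ (Icc 1 z).filter (fun n => n.primeFactors = P), F n ≤ ∏ p ∈ P, g p := by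
  classical
  set φ : ℕ → (∀ a ∈ P, ℕ) := fun n p _ => n.factorization p with hφ
  set G : (∀ a ∈ P, ℕ) → ℝ := fun k => ∏ p ∈ P.attach, F (p.1 ^ (k p.1 p.2)) with hG
  have e1 : ∀ n ∈ (Icc 1 z).filter (fun n => n.primeFactors = P), F n = G (φ n) := by
    intro n hn
    rw [mem_filter, mem_Icc] at hn
    have hn0 : n ≠ 0 := by omega
    rw [Nat.multiplicative_factorization F hm h1 hn0, Finsupp.prod, Nat.support_factorization, hn.2,
      ← prod_attach]
  have hinj : Set.InjOn φ ((Icc 1 z).filter (fun n => n.primeFactors = P)) := by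
    intro n hn m hm' hnm
    rw [mem_coe, mem_filter, mem_Icc] at hn hm'
    refine Nat.eq_of_factorization_eq (by omega) (by omega) fun p => ?_
    by_cases hp : p ∈ P
    · exact congrFun (congrFun hnm p) hp
    · have a1 : p ∉ n.factorization.support := by rw [Nat.support_factorization, hn.2]; exact hp
      have a2 : p ∉ m.factorization.support := by rw [Nat.support_factorization, hm'.2]; exact hp
      rw [Finsupp.notMem_support_iff.1 a1, Finsupp.notMem_support_iff.1 a2]
  calc ∑ n ∈ (Icc 1 z).filter (fun n => n.primeFactors = P), F n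
      = ∑ n ∈ (Icc 1 z).filter (fun n => n.primeFactors = P), G (φ n) := sum_congr rfl e1
    _ = ∑ k ∈ ((Icc 1 z).filter (fun n => n.primeFactors = P)).image φ, G k :=
        (sum_image hinj).symm
    _ ≤ ∑ k ∈ P.pi (fun _ => Icc 1 z), G k := by
        refine sum_le_sum_of_subset_of_nonneg ?_ fun k _ _ => prod_nonneg fun p _ => h0 _
        intro k hk
        rw [mem_image] at hk
        obtain ⟨n, hn, rfl⟩ := hk
        rw [mem_filter, mem_Icc] at hn
        rw [mem_pi]
        intro p hp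
        rw [mem_Icc]
        have hn0 : n ≠ 0 := by omega
        constructor
        · have : p ∈ n.primeFactors := by rw [hn.2]; exact hp
          exact (hP p hp).factorization_pos_of_dvd hn0 (Nat.dvd_of_mem_primeFactors this)
        · exact (Nat.factorization_lt p hn0).le.trans hn.1.2
    _ = ∏ p ∈ P, ∑ k ∈ Icc 1 z, F (p ^ k) := by
        rw [prod_sum]
    _ ≤ ∏ p ∈ P, g p :=
        prod_le_prod (fun p _ => sum_nonneg fun k _ => h0 _) (fun p hp => hg p (hP p hp) z)

private theorem glo_geom (x u : ℝ) (a : ℕ → ℝ) (ha0 : a 0 = 1) (ha : ∀ k, a (k + 1) = 1 + x * a k) (K : ℕ) :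
    (1 - u) * (1 - x * u) * ∑ k ∈ range (K + 1), a k * u ^ k =
      1 - a (K + 1) * u ^ (K + 1) + x * a K * u ^ (K + 2) := by
  induction K with
  | zero => simp [ha0, ha]; ring
  | succ K ih =>
    rw [sum_range_succ, mul_add, ih, ha (K + 1), ha K]
    have hK : x ^ 0 = 1 := pow_zero x
    ring

private theorem glo_bd (x u : ℝ) (a : ℕ → ℝ) (ha0 : a 0 = 1) (ha : ∀ k, a (k + 1) = 1 + x * a k)
    (hap : ∀ k, 0 ≤ a k) (hu : 0 ≤ u) (hu1 : u ≤ 1) (K : ℕ) :
    (1 - u) * (1 - x * u) * ∑ k ∈ range (K + 1), a k * u ^ k ≤ 1 := by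
  rw [glo_geom x u a ha0 ha K]
  have h1 : x * a K * u ≤ a (K + 1) := by
    rcases le_or_gt 0 (x * a K) with h | h
    · rw [ha]; nlinarith
    · exact (mul_nonpos_of_nonpos_of_nonneg h.le hu).trans (hap _)
  have h2 := mul_le_mul_of_nonneg_right h1 (pow_nonneg hu (K + 1))
  have h3 : x * a K * u ^ (K + 2) = x * a K * u * u ^ (K + 1) := by ring
  rw [h3]; linarith

theorem hGlo : StFfb → StGlo := by
  intro hF e δ z he hδ hz
  obtain ⟨hev, hf1, hfm, hf0, -, hgf⟩ := hF e δ he hδ
  -- values at prime powers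
  have hpp : ∀ p : ℕ, p.Prime → ∀ k : ℕ, ff e δ (p ^ k) =
      ∑ j ∈ range (k + 1), ((e.ev p).re * (p : ℝ) ^ (-δ)) ^ j := by
    intro p hp k
    unfold ff
    rw [Nat.sum_divisors_prime_pow hp]
    refine sum_congr rfl fun j _ => ?_
    have e1 : e.ev (p ^ j) = (((e.ev p).re ^ j : ℝ) : ℂ) := by
      have : e.ev (p ^ j) = e.ev p ^ j := by
        unfold PCh.ev
        rw [Nat.cast_pow, map_pow]
      rw [this]
      have h2 : e.ev p = ((e.ev p).re : ℂ) := by
        apply Complex.ext <;> simp [(hev p).1]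
      rw [h2]
      push_cast
      simp
    rw [e1, Complex.ofReal_re, mul_pow]
    congr 1
    push_cast
    rw [← Real.rpow_natCast, ← Real.rpow_natCast, ← Real.rpow_mul (by positivity),
      ← Real.rpow_mul (by positivity), mul_comm]
  have hprime : ∀ p : ℕ, p.Prime → ∀ K : ℕ, ∑ k ∈ Icc 1 K, ff e δ (p ^ k) / ((p ^ k : ℕ) : ℝ) ≤
      gf e δ p / (1 - gf e δ p) := by
    intro p hp K
    have hp0 : (0 : ℝ) < p := by exact_mod_cast hp.pos
    have hp1 : (1 : ℝ) ≤ p := by exact_mod_cast hp.one_le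
    set x := (e.ev p).re * (p : ℝ) ^ (-δ) with hx
    set u : ℝ := 1 / (p : ℝ) with hu
    have hu0 : 0 ≤ u := by positivity
    have hu1 : u ≤ 1 := by rw [hu, div_le_one hp0]; exact hp1
    have hgg : 1 - gf e δ p = (1 - u) * (1 - x * u) := by
      unfold gf
      have : (p : ℝ) ^ (-1 - δ) = (p : ℝ) ^ (-δ) * (1 / p) := by
        rw [show -1 - δ = -δ + (-1) by ring, Real.rpow_add hp0, Real.rpow_neg_one, one_div]
      rw [this, hx, hu]; ring
    have hpos : 0 < 1 - gf e δ p := by linarith [(hgf p hp).2]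
    set a : ℕ → ℝ := fun k => ∑ j ∈ range (k + 1), x ^ j with ha
    have ha0 : a 0 = 1 := by simp [ha]
    have has : ∀ k, a (k + 1) = 1 + x * a k := by
      intro k
      simp only [ha]
      rw [sum_range_succ', pow_zero, mul_sum, add_comm]
      congr 1
      exact sum_congr rfl fun j _ => by rw [pow_succ, mul_comm]
    have hap : ∀ k, 0 ≤ a k := by
      intro k
      have := hf0 (p ^ k)
      rw [hpp p hp k] at this
      exact this
    have hb := glo_bd x u a ha0 has hap hu0 hu1 K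
    rw [← hgg] at hb
    have hs : ∑ k ∈ range (K + 1), a k * u ^ k = 1 + ∑ k ∈ Icc 1 K, ff e δ (p ^ k) / ((p ^ k : ℕ) : ℝ) := by
      rw [range_eq_Ico, sum_eq_sum_Ico_succ_bot (Nat.succ_pos K), ha0, pow_zero, mul_one]
      congr 1
      have : Ico (0 + 1) (K + 1) = Icc 1 K := by
        ext k; simp only [mem_Ico, mem_Icc]; omega
      rw [this]
      refine sum_congr rfl fun k _ => ?_
      rw [hpp p hp k]
      simp only [ha, hu]
      push_cast
      rw [one_div, inv_pow, div_eq_mul_inv]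
    rw [hs] at hb
    rw [le_div_iff₀ hpos]
    nlinarith
  have hFm : ∀ m n : ℕ, Nat.Coprime m n →
      ff e δ (m * n) / ((m * n : ℕ) : ℝ) = ff e δ m / (m : ℝ) * (ff e δ n / (n : ℝ)) := by
    intro m n hmn
    rw [hfm m n hmn]
    push_cast
    rw [div_mul_div_comm]
  have hmaps : ∀ n ∈ Icc 1 z, (∏ p ∈ n.primeFactors, p) ∈ (Icc 1 z).filter Squarefree := by
    intro n hn
    rw [mem_Icc] at hn
    have hd : (∏ p ∈ n.primeFactors, p) ∣ n := Nat.prod_primeFactors_dvd n
    rw [mem_filter, mem_Icc]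
    refine ⟨⟨Nat.pos_of_dvd_of_pos hd (by omega), (Nat.le_of_dvd (by omega) hd).trans hn.2⟩, ?_⟩
    refine Finset.squarefree_prod_of_pairwise_isCoprime (fun p hp q hq hpq => ?_) fun p hp =>
      (Nat.prime_of_mem_primeFactors hp).prime.squarefree
    exact Nat.coprime_iff_isRelPrime.mp ((Nat.coprime_primes
      (Nat.prime_of_mem_primeFactors hp) (Nat.prime_of_mem_primeFactors hq)).mpr hpq)
  rw [← sum_fiberwise_of_maps_to hmaps]
  refine sum_le_sum fun d hd => ?_
  rw [mem_filter, mem_Icc] at hd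
  have key := glo_fiber (fun n => ff e δ n / (n : ℝ)) (fun p => gf e δ p / (1 - gf e δ p))
    (by simp [hf1]) hFm (fun n => div_nonneg (hf0 n) (Nat.cast_nonneg n)) hprime z d.primeFactors
    (fun p hp => Nat.prime_of_mem_primeFactors hp)
  unfold gD
  refine le_trans (le_of_eq ?_) key
  refine sum_congr ?_ fun _ _ => rfl
  ext n
  rw [mem_filter, mem_filter]
  refine and_congr_right fun hn => ?_
  constructor
  · rintro rfl
    exact (Nat.primeFactors_prod fun p hp => Nat.prime_of_mem_primeFactors hp).symm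
  · intro h
    rw [h]
    exact Nat.prod_primeFactors_of_squarefree hd.2

end Pool.Agent.Helper84.MV
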